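import Pool.Agent.Lib.MP_0e3b4a_gt.Iface

/-! # Module SPAN: a control with surjective first variation -/

set_option autoImplicit false

namespace Pool.Agent.CutLoci.H71

open MeasureTheory Set Filter Topology

section
variable {r : ℕ} {A : Type} [NormedRing A] [NormedAlgebra ℝ A] [CompleteSpace A]

omit [CompleteSpace A] in
theorem iter_congr (R : EE r →L[ℝ] A) (u v : ℝ → EE r)
    (h : u =ᵐ[volume.restrict (Ioc (0 : ℝ) 1)] v) (k : ℕ) :
    ∀ t ∈ Icc (0 : ℝ) 1, iter R u k t = iter R v k t := by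
  induction k with
  | zero => intro t _; rfl
  | succ k ih =>
    intro t ht
    simp only [iter]
    rw [intervalIntegral.integral_of_le ht.1, intervalIntegral.integral_of_le ht.1]
    apply integral_congr_ae
    have h' : u =ᵐ[volume.restrict (Ioc (0 : ℝ) t)] v :=
      ae_restrict_of_ae_restrict_of_subset (Ioc_subset_Ioc_right ht.2) h
    filter_upwards [h', ae_restrict_mem measurableSet_Ioc] with s hs hst
    rw [ih s ⟨hst.1.le, hst.2.trans ht.2⟩, hs]

theorem iter_const (R : EE r →L[ℝ] A) (q : EE r) (k : ℕ) (t : ℝ) :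
    iter R (fun _ => q) k t = (t ^ k / (k.factorial : ℝ)) • (R q) ^ k := by
  induction k generalizing t with
  | zero => simp [iter]
  | succ k ih =>
    simp only [iter]
    have h1 : (fun s => iter R (fun _ => q) k s * R q) =
        fun s => (s ^ k / (k.factorial : ℝ)) • (R q) ^ (k + 1) := by
      ext s; rw [ih, smul_mul_assoc, ← pow_succ]
    rw [h1, intervalIntegral.integral_smul_const]
    congr 1
    rw [intervalIntegral.integral_div, integral_pow, Nat.factorial_succ]
    push_cast
    have : (k.factorial : ℝ) ≠ 0 := by positivity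
    have h2 : (k : ℝ) + 1 ≠ 0 := by positivity
    field_simp
    simp

theorem flow_const (R : EE r →L[ℝ] A) (N : ℕ) (q : EE r) :
    flow R N (Lp.const 2 ((volume : Measure ℝ).restrict (Ioc (0 : ℝ) 1)) q : Ctl r) 1 =
      ∑ k ∈ Finset.range N, (1 / (k.factorial : ℝ)) • (R q) ^ k := by
  unfold flow
  refine Finset.sum_congr rfl fun k _ => ?_
  rw [iter_congr R _ (fun _ => q) (Lp.coeFn_const (p := 2)
    (μ := (volume : Measure ℝ).restrict (Ioc (0 : ℝ) 1)) q) k 1 ⟨zero_le_one, le_refl _⟩, iter_const]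
  simp

end

variable {g : Type} [NormedAddCommGroup g] [NormedSpace ℝ g] [FiniteDimensional ℝ g] {r : ℕ}

theorem int_ctl (u : Ctl r) : IntegrableOn (u : ℝ → EE r) (Ioc 0 1) := by
  have h := (Lp.memLp u).integrable (by norm_num)
  exact h

theorem lin_mul (C : Carnot g r) (hS : StrucStatement g r) (u v : Ctl r) {s t : ℝ}
    (ht : t ∈ Icc (0 : ℝ) 1) :
    Carnot.lin (C.Gam u s * C.Gam v t) = (C.Ad u s).comp (C.Ad v t) := by
  have h := ((hS C v (int_ctl v)).2.2 t ht).1
  ext z
  simp only [Carnot.lin, Carnot.Ad, ContinuousLinearMap.coe_comp, Function.comp_apply,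
    ContinuousLinearMap.inl_apply, ContinuousLinearMap.coe_fst', mul_apply_eq_comp]
  rw [h z 0]

theorem Ad_conc (C : Carnot g r) (hS : StrucStatement g r) (u v w : Ctl r) {t : ℝ}
    (ht : t ∈ Icc (0 : ℝ) 1) (h : C.Gam w ((1 + t) / 2) = C.Gam u 1 * C.Gam v t) (x : g) :
    C.Ad w ((1 + t) / 2) x = C.Ad u 1 (C.Ad v t x) := by
  have h1 : C.Ad w ((1 + t) / 2) = Carnot.lin (C.Gam w ((1 + t) / 2)) := by
    unfold Carnot.Ad; exact rfl
  rw [h1, h, lin_mul C hS u v ht, ContinuousLinearMap.comp_apply]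

/-- The span of `Ad_t V_1`. -/
def II (C : Carnot g r) (u : Ctl r) : Submodule ℝ g :=
  Submodule.span ℝ {z | ∃ t ∈ Icc (0 : ℝ) 1, ∃ a, z = C.Ad u t (C.X a)}

/-- The span of all `Ad_v(t) V_1`. -/
def JJ (C : Carnot g r) : Submodule ℝ g :=
  Submodule.span ℝ {z | ∃ v : Ctl r, ∃ t ∈ Icc (0 : ℝ) 1, ∃ a, z = C.Ad v t (C.X a)}

theorem JJ_inv (C : Carnot g r) (hC : ConcStatement g r) (hS : StrucStatement g r) (u : Ctl r)
    (z : g) (hz : z ∈ JJ C) : C.Ad u 1 z ∈ JJ C := by
  have h : JJ C ≤ (JJ C).comap (C.Ad u 1).toLinearMap := by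
    unfold JJ
    rw [Submodule.span_le]
    rintro z ⟨v, t, ht, a, rfl⟩
    obtain ⟨w, hw⟩ := (hC C).1 u v
    have h2 := Ad_conc C hS u v w ht (hw t ht).2 (C.X a)
    rw [SetLike.mem_coe, Submodule.mem_comap, ContinuousLinearMap.coe_coe, ← h2]
    exact Submodule.subset_span
      ⟨w, (1 + t) / 2, ⟨by linarith [ht.1], by linarith [ht.2]⟩, a, rfl⟩
  have h' := h hz
  rwa [Submodule.mem_comap, ContinuousLinearMap.coe_coe] at h'

theorem JJ_ad (C : Carnot g r) (hC : ConcStatement g r) (hS : StrucStatement g r) (p : EE r)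
    (z : g) (hz : z ∈ JJ C) : C.br (C.X p) z ∈ JJ C := by
  rcases Nat.eq_zero_or_pos C.s with h0 | h0
  · have : (⊤ : Submodule ℝ g) = ⊥ := by
      rw [← C.V_top, eq_bot_iff, iSup_le_iff]
      intro j
      rcases Nat.eq_zero_or_pos j with rfl | hj
      · rw [C.V_zero]
      · rw [C.V_big j (by omega)]
    have h1 : C.br (C.X p) z ∈ (⊤ : Submodule ℝ g) := Submodule.mem_top
    rw [this, Submodule.mem_bot] at h1
    rw [h1]; exact Submodule.zero_mem _
  · by_contra hn
    obtain ⟨l, hl1, hl2⟩ := Submodule.exists_le_ker_of_notMem hn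
    -- the polynomial
    set P : Polynomial ℝ := ∑ k ∈ Finset.range (C.s + 1),
      Polynomial.C ((1 / (k.factorial : ℝ)) * l (((C.R p) ^ k) (z, 0)).1) * Polynomial.X ^ k
      with hP
    have hP0 : P = 0 := by
      apply Polynomial.funext
      intro τ
      have h1 : C.Ad (Lp.const 2 ((volume : Measure ℝ).restrict (Ioc (0 : ℝ) 1)) (τ • p) : Ctl r)
          1 z ∈ JJ C := JJ_inv C hC hS _ z hz
      have h2 := hl2 h1
      rw [LinearMap.mem_ker] at h2
      rw [Polynomial.eval_zero, ← h2]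
      simp only [Carnot.Ad, Carnot.lin, Carnot.Gam]
      rw [flow_const]
      simp only [hP, Polynomial.eval_finsetSum, Polynomial.eval_mul, Polynomial.eval_C,
        Polynomial.eval_pow, Polynomial.eval_X, ContinuousLinearMap.coe_comp,
        Function.comp_apply, ContinuousLinearMap.inl_apply, ContinuousLinearMap.coe_fst',
        FunLike.coe_sum, Finset.sum_apply, Prod.fst_sum, map_sum,
        FunLike.coe_smul, Pi.smul_apply, Prod.smul_fst, map_smul, smul_eq_mul,
        smul_pow]
      refine Finset.sum_congr rfl fun k _ => by ring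
    have h3 : P.coeff 1 = l (C.br (C.X p) z) := by
      rw [hP, Polynomial.finsetSum_coeff]
      simp only [Polynomial.coeff_C_mul, Polynomial.coeff_X_pow]
      rw [Finset.sum_eq_single 1]
      · simp [Carnot.R, C.rep_apply]
      · intro k _ hk
        simp [Ne.symm hk]
      · intro h; exact absurd (Finset.mem_range.2 (by omega)) h
    rw [hP0] at h3
    apply hl1
    rw [← h3]; simp

theorem JJ_top (C : Carnot g r) (hC : ConcStatement g r) (hS : StrucStatement g r) :
    JJ C = ⊤ := by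
  have h1 : C.V 1 ≤ JJ C := by
    intro x hx
    rw [← C.X_range] at hx
    obtain ⟨a, rfl⟩ := hx
    refine Submodule.subset_span ⟨0, 0, ⟨le_refl _, zero_le_one⟩, a, ?_⟩
    have h := ((hS C (0 : Ctl r) (int_ctl 0)).2.2 0 ⟨le_refl _, zero_le_one⟩).2.2.2.1 (C.X a)
    simp only [intervalIntegral.integral_same, add_zero] at h
    exact h.symm
  have h2 : ∀ j, C.V (j + 1) ≤ JJ C := by
    intro j
    induction j with
    | zero => exact h1
    | succ j ih =>
      rw [C.gen (j + 1) (by omega), Submodule.span_le]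
      rintro z ⟨x, hx, y, hy, rfl⟩
      rw [← C.X_range] at hx
      obtain ⟨a, rfl⟩ := hx
      exact JJ_ad C hC hS a y (ih hy)
  rw [eq_top_iff, ← C.V_top, iSup_le_iff]
  intro j
  rcases j with _ | j
  · rw [C.V_zero]; exact bot_le
  · exact h2 j

theorem span (hC : ConcStatement g r) (hS : StrucStatement g r) (_ : GradeStatement g r)
    (hR : RangeStatement g r) (hB : BiliStatement g r) : SpanStatement g r := by
  intro C
  -- a control with maximal rank
  obtain ⟨u, hu⟩ : ∃ u : Ctl r, ∀ v : Ctl r, Module.finrank ℝ (II C v) ≤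
      Module.finrank ℝ (II C u) := by
    have hbd : ∀ v : Ctl r, Module.finrank ℝ (II C v) ≤ Module.finrank ℝ g := fun v =>
      Submodule.finrank_le _
    have hne : (Set.range fun v : Ctl r => Module.finrank ℝ (II C v)).Nonempty :=
      ⟨_, 0, rfl⟩
    have hba : BddAbove (Set.range fun v : Ctl r => Module.finrank ℝ (II C v)) :=
      ⟨Module.finrank ℝ g, by rintro _ ⟨v, rfl⟩; exact hbd v⟩
    obtain ⟨u, hu⟩ := Nat.sSup_mem hne hba
    exact ⟨u, fun v => by
      have := le_csSup hba ⟨v, rfl⟩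
      rw [← hu] at this; exact this⟩
  have hI : II C u = ⊤ := by
    have hJ : JJ C ≤ (II C u).comap (C.Ad u 1).toLinearMap := by
      unfold JJ
      rw [Submodule.span_le]
      rintro z ⟨v, t, ht, a, rfl⟩
      obtain ⟨w, hw⟩ := (hC C).1 u v
      have h1 : II C u ≤ II C w := by
        unfold II
        rw [Submodule.span_le]
        rintro z ⟨t, ht, a, rfl⟩
        refine Submodule.subset_span ⟨t / 2, ⟨by linarith [ht.1], by linarith [ht.2]⟩, a, ?_⟩
        have := (hw t ht).1
        simp only [Carnot.Ad]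
        rw [this]
      have h2 : II C u = II C w := Submodule.eq_of_le_of_finrank_le h1 (hu w)
      have h3 := Ad_conc C hS u v w ht (hw t ht).2 (C.X a)
      rw [SetLike.mem_coe, Submodule.mem_comap, ContinuousLinearMap.coe_coe, ← h3, h2]
      exact Submodule.subset_span
        ⟨(1 + t) / 2, ⟨by linarith [ht.1], by linarith [ht.2]⟩, a, rfl⟩
    rw [JJ_top C hC hS] at hJ
    obtain ⟨B, -, hB2⟩ := ((hS C u (int_ctl u)).2.2 1 ⟨zero_le_one, le_refl _⟩).2.2.2.2.2
    rw [eq_top_iff]
    intro z _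
    have h4 : C.Ad u 1 (B z) ∈ II C u := by
      have h' := hJ (Submodule.mem_top : B z ∈ (⊤ : Submodule ℝ g))
      rwa [Submodule.mem_comap, ContinuousLinearMap.coe_coe] at h'
    have h5 : C.Ad u 1 (B z) = z := by
      have := congrArg (fun T : g →L[ℝ] g => T z) hB2
      simpa using this
    rwa [h5] at h4
  refine ⟨u, ?_⟩
  obtain ⟨L, hL⟩ := (hB C u).1
  have hL1 := hL 1 ⟨zero_le_one, le_refl _⟩
  have htop : LinearMap.range (L 1).toLinearMap = ⊤ := by
    by_contra hne
    obtain ⟨l, hl1, hl2⟩ := Submodule.exists_le_ker_of_lt_top _ (lt_top_iff_ne_top.2 hne)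
    have hR1 := (hR C u (LinearMap.toContinuousLinearMap l) 0 1 (le_refl _) zero_lt_one
      (le_refl _)).1 (by
        intro x _
        rw [← hL1 x]
        have : (L 1).toLinearMap x ∈ LinearMap.ker l := hl2 ⟨x, rfl⟩
        exact this)
    apply hl1
    have hk : II C u ≤ LinearMap.ker l := by
      unfold II
      rw [Submodule.span_le]
      rintro z ⟨t, ht, a, rfl⟩
      exact hR1 t ht a
    rw [hI] at hk
    ext z
    exact hk (Submodule.mem_top : z ∈ (⊤ : Submodule ℝ g))
  intro w
  have hw : w ∈ LinearMap.range (L 1).toLinearMap := by rw [htop]; exact Submodule.mem_top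
  obtain ⟨x, hx⟩ := hw
  exact ⟨x, by rw [← hL1 x]; exact hx⟩

end Pool.Agent.CutLoci.H71
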